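import Mathlib
import Pool.Agent.Lib.helper1.Mask

set_option autoImplicit false
set_option maxRecDepth 100000
open Finset Sum

namespace Pool.Agent.H.MP_ca8007_co.A
open Pool.Agent.Lib.helper1.Flip Pool.Agent.Lib.helper1.Mask

variable {α β : Type} [DecidableEq α] [DecidableEq β]

/-- `K'` is the stellar subdivision of `K` at a nonempty face `A`, with new vertex `v`. -/
def Sub (K K' : Set (Finset α)) : Prop :=
  ∃ A ∈ K, A.Nonempty ∧ ∃ v, {v} ∉ K ∧
    K' = {σ | (σ ∈ K ∧ ¬ A ⊆ σ) ∨ (v ∈ σ ∧ σ.erase v ∪ A ∈ K ∧ ¬ A ⊆ σ)}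

/-- combinatorial `n`-spheres in the sense of Alexander. -/
def IsSphere (n : ℕ) (K : Set (Finset α)) : Prop :=
  ∃ T : Finset α, T.card = n + 2 ∧ Relation.EqvGen Sub {σ | σ ⊂ T} K

def join (K : Set (Finset α)) (L : Set (Finset β)) : Set (Finset (α ⊕ β)) :=
  {σ | σ.toLeft ∈ K ∧ σ.toRight ∈ L}

theorem join_sub {K K' : Set (Finset α)} {L : Set (Finset β)} (h : ∅ ∈ L)
    (s : Relation.EqvGen Sub K K') : Relation.EqvGen Sub (join K L) (join K' L) := by
  induction s with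
  | rel K K' s =>
    obtain ⟨A, a, ⟨x, b⟩, v, c, rfl⟩ := s
    refine .rel _ _ ⟨A.disjSum ∅, ⟨by rwa [toLeft_disjSum], by rwa [toRight_disjSum]⟩,
      ⟨inl x, by simpa using b⟩, inl v, fun t => c (by
        rw [← show ({inl v} : Finset (α ⊕ β)).toLeft = {v} by ext; simp]
        exact t.1), Set.ext fun σ => ?_⟩
    have e1 : (σ.erase (inl v) ∪ A.disjSum ∅).toLeft = σ.toLeft.erase v ∪ A := by
      ext
      simp
    have e2 : (σ.erase (inl v) ∪ A.disjSum ∅).toRight = σ.toRight := by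
      ext
      simp
    simp only [join, Set.mem_ofPred_eq, e1, e2, disjSum_subset, empty_subset, and_true, mem_toLeft]
    tauto
  | refl => exact .refl _
  | symm _ _ _ a => exact a.symm
  | trans _ _ _ _ _ a b => exact a.trans _ _ _ b

theorem susp {Q : Finset α → Prop} {A : Finset α} {a b : α} (h1 : ∀ σ τ, Q σ → τ ⊆ σ → Q τ)
    (h2 : ∀ σ, Q σ → Q (σ ∪ A)) (h3 : ∀ σ, Q (σ.erase b) → Q σ) (h4 : Q ∅) (ne : A.Nonempty)
    (ha : a ∉ A) (hb : b ∉ A) (ab : a ≠ b) : Sub {σ | Q σ ∧ b ∉ σ ∧ ¬ insert a A ⊆ σ}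
      {σ | Q σ ∧ ¬ (a ∈ σ ∧ b ∈ σ) ∧ ¬ A ⊆ σ} := by
  refine ⟨A, ⟨by simpa using h2 _ h4, hb, by simp [insert_subset_iff, ha]⟩, ne, b, by simp,
    Set.ext fun σ => ⟨fun ⟨p, q, r⟩ => ?_, ?_⟩⟩
  · by_cases c : b ∈ σ
    · exact .inr ⟨c, ⟨h2 _ (h1 _ _ p (erase_subset _ _)), by simp [hb], by
        simp [insert_subset_iff, ha, show a ∉ σ from fun t => q ⟨t, c⟩]⟩, r⟩
    · exact .inl ⟨⟨p, c, fun t => r ((subset_insert _ _).trans t)⟩, r⟩
  · rintro (⟨⟨p, q, -⟩, r⟩ | ⟨-, ⟨p, -, q⟩, r⟩)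
    · exact ⟨p, fun t => q t.2, r⟩
    · exact ⟨h3 _ (h1 _ _ p subset_union_left), fun t => q (by simp [insert_subset_iff, ab, t.1]), r⟩

def X (j : ℕ) : Set (Finset (Fin j × Bool)) := {τ | ∀ t, ¬ ((t, true) ∈ τ ∧ (t, false) ∈ τ)}

def Y {j : ℕ} (T : Finset α) (U : Finset (Fin j)) : Set (Finset (α ⊕ Fin j × Bool)) :=
  {σ | σ.toLeft ⊆ T ∧ (∀ t, inr (t, false) ∈ σ → t ∈ U ∧ inr (t, true) ∉ σ) ∧
    ¬ T.disjSum (Uᶜ ×ˢ {true}) ⊆ σ}

theorem chain {j : ℕ} {T : Finset α} (ne : T.Nonempty) (U : Finset (Fin j)) :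
    Relation.EqvGen Sub (Y T ∅) (Y T U) := by
  induction U using Finset.induction with
  | empty => exact .refl _
  | insert t U ht ih =>
    refine ih.trans _ _ _ (.rel _ _ ?_)
    have := susp (Q := fun σ : Finset (α ⊕ Fin j × Bool) => σ.toLeft ⊆ T ∧ ∀ s ≠ t,
      inr (s, false) ∈ σ → s ∈ U ∧ inr (s, true) ∉ σ) (A := T.disjSum ((insert t U)ᶜ ×ˢ {true}))
      (a := inr (t, true)) (b := inr (t, false))
      (fun σ τ h s => ⟨(toLeft_subset_toLeft s).trans h.1, fun x a b =>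
        ⟨(h.2 x a (s b)).1, fun c => (h.2 x a (s b)).2 (s c)⟩⟩)
      (fun σ h => ⟨by simp [toLeft_union, union_subset_iff, h.1], fun x a b => by
        have := h.2 x a (by simpa using b)
        simp [this]⟩)
      (fun σ h => ⟨fun x a => h.1 (by simpa using a), fun x a b => by
        simpa using h.2 x a (by simp [a, b])⟩) ⟨fun _ => by simp, by simp⟩
      (by obtain ⟨x, a⟩ := ne; exact ⟨inl x, by simpa using a⟩) (by simp) (by simp) (by simp)
    have e : insert (inr (t, true)) (T.disjSum ((insert t U)ᶜ ×ˢ {true})) =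
        T.disjSum (Uᶜ ×ˢ {true}) := by
      ext (x | ⟨x, b⟩)
      · simp
      · by_cases c : x = t <;> cases b <;> simp [c, ht]
    rw [e] at this
    convert this using 1 <;> ext σ <;> simp only [Y, Set.mem_ofPred_eq, and_assoc, mem_insert] <;>
      refine and_congr_right fun _ => ?_
    · exact ⟨fun h => ⟨fun s _ => h.1 s, fun c => ht (h.1 t c).1, h.2⟩, fun h => ⟨fun s c =>
        h.1 s (by rintro rfl; exact h.2.1 c) c, h.2.2⟩⟩
    · refine ⟨fun h => ⟨fun s a c => ⟨(h.1 s c).1.resolve_left a, (h.1 s c).2⟩,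
        fun c => (h.1 t c.2).2 c.1, h.2⟩, fun h => ⟨fun s c => ?_, h.2.2⟩⟩
      by_cases d : s = t
      · exact ⟨.inl d, fun x => h.2.1 ⟨d ▸ x, d ▸ c⟩⟩
      · exact ⟨.inr (h.1 s d c).1, (h.1 s d c).2⟩

theorem sph {n : ℕ} (j : ℕ) {K : Set (Finset α)} (h : IsSphere n K) :
    IsSphere (n + j) (join K (X j)) := by
  obtain ⟨T, a, b⟩ := h
  refine ⟨T.disjSum (univ ×ˢ {true}), by simp [a]; omega, ?_⟩
  have := chain (j := j) (card_pos.1 (show 0 < T.card by omega)) univ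
  refine .trans _ _ _ ?_ (join_sub (by simp [X]) b)
  convert this using 1 <;> ext σ <;>
    simp only [Y, join, X, Set.mem_ofPred_eq, ssubset_iff_subset_not_subset, compl_empty, subset_disjSum]
  · simp [subset_iff (s₁ := σ.toRight), and_assoc]
  · simp only [compl_univ, disjSum_subset, empty_product, empty_subset, and_true, mem_univ,
      true_and, mem_toRight, not_and]
    exact ⟨fun h => ⟨h.1.1, fun t a b => h.2 t b a, h.1.2⟩,
      fun h => ⟨⟨h.1, h.2.2⟩, fun t a b => h.2.1 t b a⟩⟩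

theorem star {n : ℕ} {l l' : List ℕ} {A B : Finset (Fin n)} (d : Disjoint A B)
    (h : Fl (Cx n l) (Cx n l') A B) (v : Fin n) (hv : v ∉ B) (σ : Finset (Fin n)) :
    (Cx n l σ ∧ ¬ A ⊆ σ) ∨ (v ∈ σ ∧ Cx n l (σ.erase v ∪ A) ∧ ¬ A ⊆ σ) →
      (Cx n l' σ ∧ ¬ B ⊆ σ) ∨ (v ∈ σ ∧ Cx n l' (σ.erase v ∪ B) ∧ ¬ B ⊆ σ) := by
  rintro (⟨a, b⟩ | ⟨a, b, c⟩)
  · exact .inl ⟨h.h3 _ a b, h.h1 _ a⟩
  · obtain ⟨x, p, q⟩ := not_subset.1 c
    obtain ⟨m, r, s⟩ := h.h5 _ b subset_union_right x p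
    refine .inr ⟨a, ⟨m, r, fun i hi => s ?_⟩, fun t => h.h1 _ b
      ((subset_erase.2 ⟨t, hv⟩).trans subset_union_left)⟩
    have := disjoint_left.1 d p
    simp only [mem_erase, mem_union] at hi ⊢
    rcases hi with hi | hi
    · exact ⟨fun e => q (e ▸ hi.2), .inl (.inl hi)⟩
    · exact ⟨fun e => this (e ▸ hi), .inr hi⟩

def rn (z : List ℕ) : List ℕ → List (ℕ × ℕ × List ℕ) → Bool
  | l, [] => l == z
  | l, p :: r => decide (p.1 < 1024 ∧ p.2.1 < 1024 ∧ p.1 ≠ 0 ∧ p.2.1 ≠ 0 ∧ p.1 &&& p.2.1 = 0 ∧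
      (∀ m ∈ l, m < 1024) ∧ ∀ m ∈ p.2.2, m < 1024) && l.any (sub p.1) && p.2.2.any (sub p.2.1) &&
      okFl 11 l p.2.2 p.1 p.2.1 && okFl 11 p.2.2 l p.2.1 p.1 && rn z p.2.2 r

theorem nm {m : ℕ} (h : m < 1024) : (10 : Fin 11) ∉ f 11 m := by
  simpa [mem_f] using Nat.testBit_lt_two_pow (i := 10) h

theorem rn_ok (z : List ℕ) (r : List (ℕ × ℕ × List ℕ)) : ∀ l, rn z l r = true →
    Relation.EqvGen Sub {σ | Cx 11 z σ} {σ | Cx 11 l σ} := by
  induction r with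
  | nil =>
    intro l h
    obtain rfl : l = z := by simpa [rn] using h
    exact .refl _
  | cons p r ih =>
    intro l h
    simp only [rn, Bool.and_eq_true, decide_eq_true_eq, List.any_eq_true] at h
    obtain ⟨⟨⟨⟨⟨⟨a, b, c, d, e, g, k⟩, m, p1, p2⟩, m', q1, q2⟩, h1⟩, h2⟩, h3⟩ := h
    have dj : Disjoint (f 11 p.1) (f 11 p.2.1) := by
      rw [disjoint_iff_inter_eq_empty, ← f_and, e]
      ext
      simp [mem_f]
    have h1 := ok_fl (by omega) (by omega) h1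
    have h2 := ok_fl (by omega) (by omega) h2
    refine (ih _ h3).trans _ _ _ (.trans _ _ _ (.rel _ _ ⟨_, ⟨m', q1, sub_f q2⟩, f_ne (by omega) d,
      10, fun ⟨x, y, t⟩ => nm (k x y) (by simpa using t), rfl⟩) (.symm _ _ (.rel _ _
      ⟨_, ⟨m, p1, sub_f p2⟩, f_ne (by omega) c, 10, fun ⟨x, y, t⟩ => nm (g x y) (by simpa using t),
        Set.ext fun σ => ⟨star dj.symm h2 10 (nm a) σ, star dj h1 10 (nm b) σ⟩⟩)))

def fac : List ℕ :=
  [90, 101, 102, 153, 154, 165, 277, 281, 298, 325, 330, 340, 344, 353, 354, 393, 417, 424, 533,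
  550, 554, 582, 594, 596, 645, 650, 657, 658, 676, 680]

def fl : List (ℕ × ℕ × List ℕ) :=
  [(65, 292, [90, 102, 153, 154, 165, 277, 281, 293, 298, 330, 340, 344, 354, 356, 393, 417,
  424, 533, 550, 554, 582, 594, 596, 645, 650, 657, 658, 676, 680]), (513, 148, [90, 102, 149,
  153, 154, 165, 277, 281, 293, 298, 330, 340, 344, 354, 356, 393, 417, 424, 550, 554, 582, 594,
  596, 650, 658, 660, 676, 680]), (33, 388, [90, 102, 149, 153, 154, 277, 281, 298, 330, 340,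
  344, 354, 356, 389, 393, 420, 424, 550, 554, 582, 594, 596, 650, 658, 660, 676, 680]), (96,
  262, [90, 149, 153, 154, 277, 281, 294, 298, 326, 330, 340, 344, 389, 393, 420, 424, 550, 554,
  582, 594, 596, 650, 658, 660, 676, 680]), (72, 274, [149, 153, 154, 277, 281, 282, 294, 298,
  326, 338, 340, 389, 393, 420, 424, 550, 554, 582, 594, 596, 650, 658, 660, 676, 680]), (576,
  22, [86, 149, 153, 154, 277, 281, 282, 294, 298, 326, 338, 340, 389, 393, 420, 424, 534, 550,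
  554, 650, 658, 660, 676, 680]), (5, 400, [86, 153, 154, 281, 282, 294, 298, 326, 338, 340,
  393, 401, 404, 420, 424, 534, 550, 554, 650, 658, 660, 676, 680]), (64, 278, [153, 154, 278,
  281, 282, 294, 298, 393, 401, 404, 420, 424, 534, 550, 554, 650, 658, 660, 676, 680]), (520,
  162, [153, 154, 170, 278, 281, 282, 294, 298, 393, 401, 404, 420, 424, 534, 550, 658, 660,
  674, 676]), (528, 134, [150, 153, 154, 170, 278, 281, 282, 294, 298, 393, 401, 404, 420, 424,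
  550, 646, 674, 676]), (512, 166, [150, 153, 154, 166, 170, 278, 281, 282, 294, 298, 393, 401,
  404, 420, 424]), (1, 408, [150, 154, 166, 170, 278, 282, 294, 298, 404, 408, 420, 424]), (36,
  386, [150, 154, 170, 278, 282, 298, 390, 404, 408, 418, 424]), (4, 402, [154, 170, 282, 298,
  402, 408, 418, 424]), (32, 394, [154, 282, 394, 402, 408])]

theorem base : IsSphere 3 {σ | Cx 11 fac σ} := by
  refine ⟨f 11 410, by decide +kernel, ?_⟩
  convert rn_ok [154, 282, 394, 402, 408] fl fac (by decide +kernel) using 1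
  ext σ
  have h1 : ∀ a ∈ f 11 410, ∃ m ∈ [154, 282, 394, 402, 408], f 11 m = (f 11 410).erase a := by decide +kernel
  have h2 : ∀ m ∈ [154, 282, 394, 402, 408], ∃ a ∈ f 11 410, f 11 m = (f 11 410).erase a := by decide +kernel
  rw [Set.mem_ofPred_eq, ssubset_iff_exists_subset_erase]
  exact ⟨fun ⟨a, x, y⟩ => (h1 a x).imp fun m t => ⟨t.1, y.trans t.2.ge⟩,
    fun ⟨m, x, y⟩ => (h2 m x).imp fun a t => ⟨t.1, y.trans t.2.le⟩⟩

end Pool.Agent.H.MP_ca8007_co.A
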