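import Mathlib
import Pool.Agent.H.MP_ca8007_co.A

set_option autoImplicit false
open Finset Sum

namespace Pool.Agent.H.MP_ca8007_co.B
open Pool.Agent.Lib.helper1.Mask Pool.Agent.H.MP_ca8007_co.A

variable {j : ℕ}

def K (j : ℕ) : Set (Finset (Fin 11 ⊕ Fin j × Bool)) := join {σ | Cx 11 fac σ} (X j)

def ψ : Fin 11 → Fin 11 := ![1, 0, 3, 2, 5, 4, 7, 6, 9, 8, 10]

def φ : Fin 11 ⊕ Fin j × Bool → Fin 11 ⊕ Fin j × Bool := Sum.map ψ fun p => (p.1, !p.2)

theorem mem_K {σ : Finset (Fin 11 ⊕ Fin j × Bool)} : σ ∈ K j ↔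
    (∃ m ∈ fac, ∀ i : Fin 11, inl i ∈ σ → m.testBit i = true) ∧
      ∀ t, ¬ (inr (t, true) ∈ σ ∧ inr (t, false) ∈ σ) := by
  simp [K, join, Cx, X, subset_iff, mem_f]

theorem d1 : (∀ i, ψ (ψ i) = i) ∧
    (∀ m ∈ fac, ∃ m' ∈ fac, ∀ i : Fin 11, m.testBit i = true → m'.testBit (ψ i) = true) ∧
    (∀ m ∈ fac, ∀ i : Fin 11, m.testBit i = true → m.testBit (ψ i) = false) ∧
    (∀ a b : Fin 11, a ≠ 10 → b ≠ 10 → b ≠ ψ a → ∃ m ∈ fac, m.testBit a = true ∧
      m.testBit b = true) ∧ (∀ m ∈ fac, m.testBit 10 = false) ∧ ∀ a : Fin 11, a ≠ 10 → a ≠ ψ a ∧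
      ψ a ≠ 10 := by
  decide +kernel

theorem inv (v : Fin 11 ⊕ Fin j × Bool) : φ (φ v) = v := by
  rcases v with v | v <;> simp [φ, d1.1]

theorem mem_im {σ : Finset (Fin 11 ⊕ Fin j × Bool)} {v : Fin 11 ⊕ Fin j × Bool} :
    v ∈ σ.image φ ↔ φ v ∈ σ := by
  rw [mem_image]
  exact ⟨fun ⟨w, a, b⟩ => by rwa [← b, inv], fun h => ⟨_, h, inv v⟩⟩

theorem im {σ : Finset (Fin 11 ⊕ Fin j × Bool)} (h : σ ∈ K j) :
    σ.image φ ∈ K j ∧ Disjoint (σ.image φ) σ := by
  rw [mem_K] at h ⊢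
  obtain ⟨⟨m, a, b⟩, c⟩ := h
  obtain ⟨m', p, q⟩ := d1.2.1 m a
  simp only [disjoint_left, mem_im]
  refine ⟨⟨⟨m', p, fun i x => d1.1 i ▸ q _ (b _ x)⟩, fun t x => c t x.symm⟩, ?_⟩
  rintro (v | ⟨t, _ | _⟩) x y
  · simpa [b _ x] using d1.2.2.1 m a v (b v y)
  · exact c t ⟨x, y⟩
  · exact c t ⟨y, x⟩

theorem pair {v w : Fin 11 ⊕ Fin j × Bool} (a : v ≠ inl 10) (b : w ≠ inl 10) (c : w ≠ φ v) :
    {v, w} ∈ K j := by
  rw [mem_K]
  rcases v with v | ⟨v, x⟩ <;> rcases w with w | ⟨w, y⟩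
  · simpa using d1.2.2.2.1 v w (by simpa using a) (by simpa using b) (by simpa [φ] using c)
  · have a : v ≠ 10 := by simpa using a
    obtain ⟨m, p, q, -⟩ := d1.2.2.2.1 v v a a (d1.2.2.2.2.2 v a).1
    exact ⟨⟨m, p, by simpa using q⟩, by cases y <;> simp⟩
  · have a : w ≠ 10 := by simpa using b
    obtain ⟨m, p, q, -⟩ := d1.2.2.2.1 w w a a (d1.2.2.2.2.2 w a).1
    exact ⟨⟨m, p, by simpa using q⟩, by cases x <;> simp⟩
  · refine ⟨⟨90, by decide, by simp⟩, fun t => ?_⟩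
    cases x <;> cases y <;> simp [φ] at c ⊢ <;> exact fun p q => c (by omega)

theorem ne_φ {v : Fin 11 ⊕ Fin j × Bool} (a : v ≠ inl 10) : v ≠ φ v ∧ φ v ≠ inl 10 := by
  rcases v with v | ⟨v, x⟩
  · simpa [φ] using d1.2.2.2.2.2 v (by simpa using a)
  · simp [φ]

theorem vert {v : Fin 11 ⊕ Fin j × Bool} : {v} ∈ K j ↔ v ≠ inl 10 := by
  refine ⟨fun h e => ?_, fun h => by simpa using pair h h (ne_φ h).1⟩
  obtain ⟨m, a, b⟩ := (mem_K.1 h).1
  simpa [d1.2.2.2.2.1 m a] using b 10 (by simp [e])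

theorem no {E : Type} [NormedAddCommGroup E] [NormedSpace ℝ E] [FiniteDimensional ℝ E]
    (hE : Module.finrank ℝ E = 4 + j) (p : Fin 11 ⊕ Fin j × Bool → E) {P : Set E}
    (hP : P = convexHull ℝ (p '' {v | {v} ∈ K j})) (sy : P = -P)
    (h : ∀ σ ∈ K j, ∃ (u : E →L[ℝ] ℝ) (c : ℝ), (∀ x ∈ P, u x ≤ c) ∧
      ∀ v, {v} ∈ K j → (u (p v) = c ↔ v ∈ σ)) : False := by
  simp only [vert] at hP h
  have m1 : ∀ v ≠ inl 10, p v ∈ P := fun v a => hP ▸ subset_convexHull _ _ ⟨v, a, rfl⟩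
  have m2 : ∀ v ≠ inl 10, -p v ∈ P := fun v a => sy ▸ Set.neg_mem_neg.2 (m1 v a)
  have anti : ∀ v ≠ inl 10, p (φ v) = -p v := by
    intro v a
    obtain ⟨u, c, p1, p2⟩ := h _ (vert.2 a)
    have e := (p2 v a).2 (by simp)
    obtain ⟨w, b, q⟩ : ∃ w ≠ inl 10, u (p w) ≤ -c := by
      by_contra! x
      have := convexHull_min (𝕜 := ℝ) (s := p '' {v | v ≠ inl 10}) (t := {y | -c < u y})
        (by rintro _ ⟨w, b, rfl⟩; exact x w b) (convex_halfSpace_gt u.isLinear _) (hP ▸ m2 v a)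
      simp [e] at this
    have e2 : -p w = p v := by
      have := convexHull_min (𝕜 := ℝ) (s := p '' {v | v ≠ inl 10})
        (t := {y | u y ≤ c ∧ (u y = c → y = p v)}) (by
          rintro _ ⟨w, b, rfl⟩
          exact ⟨p1 _ (m1 w b), fun t => by rw [mem_singleton.1 ((p2 w b).1 t)]⟩) (by
          intro x hx y hy s t s0 t0 st
          obtain rfl : t = 1 - s := by linarith
          simp only [Set.mem_ofPred_eq, map_add, map_smul, smul_eq_mul]
          refine ⟨by nlinarith [hx.1, hy.1], fun z => ?_⟩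
          rcases s0.eq_or_lt with rfl | s0
          · simpa using hy.2 (by simpa using z)
          rcases t0.eq_or_lt with t0 | t0
          · obtain rfl : s = 1 := by linarith
            simpa using hx.2 (by simpa using z)
          · rw [hx.2 (by nlinarith [hx.1, hy.1]), hy.2 (by nlinarith [hx.1, hy.1]), ← add_smul]
            simp) (hP ▸ m2 w b)
      exact this.2 (le_antisymm this.1 (by rw [map_neg]; linarith))
    by_cases e3 : w = φ v
    · rw [← e3, ← e2, neg_neg]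
    obtain ⟨u, c, p1, p2⟩ := h _ (pair a b e3)
    have q1 := (p2 v a).2 (by simp)
    have q2 := (p2 w b).2 (by simp)
    rw [← e2, map_neg, q2] at q1
    have k : ∀ x ≠ inl 10, x ∈ ({v, w} : Finset _) := fun x y => (p2 x y).1 (by
      have := p1 _ (m1 x y)
      have := p1 _ (m2 x y)
      rw [map_neg] at this
      linarith)
    have := card_le_card (show {inl 0, inl 1, inl 2} ⊆ ({v, w} : Finset _) by
      simp only [insert_subset_iff, singleton_subset_iff]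
      exact ⟨k _ (by simp), k _ (by simp), k _ (by simp)⟩)
    have := this.trans card_le_two
    simp at this
  obtain ⟨g, g1, g2⟩ := Fintype.not_linearIndependent_iff.1 fun x : LinearIndependent ℝ
    (Sum.elim (fun i : Fin 5 => p (inl ⟨2 * i, by omega⟩)) fun t : Fin j => p (inr (t, true))) => by
      have := x.fintype_card_le_finrank
      simp [hE] at this
  have key : ∀ m ∈ fac, ∀ s : Fin j → Bool, ∃ x : Fin 5 → ℝ, (∀ i : Fin 5, |x i| ≤ 1 ∧
      (x i = 1 ↔ m.testBit (2 * i) = true) ∧ (x i = -1 ↔ m.testBit (2 * i + 1) = true)) ∧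
      ∑ i, g (inl i) * x i + ∑ t, g (inr t) * (if s t then 1 else -1) = 0 := by
    intro m a s
    obtain ⟨u, c, p1, p2⟩ := h ((f 11 m).disjSum (univ.image fun t => (t, s t)))
      (mem_K.2 ⟨⟨m, a, by simp [mem_f]⟩, by simp⟩)
    have n1 : ∀ v ≠ inl 10, u (p v) = -c ↔ φ v ∈ (f 11 m).disjSum (univ.image fun t => (t, s t)) :=
      fun v b => by rw [← p2 _ (ne_φ b).2, anti v b, map_neg, neg_eq_iff_eq_neg]
    have c0 : 0 < c := by
      have p3 := p1 _ (m1 (inl 0) (by simp))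
      have p4 := p1 _ (m2 (inl 0) (by simp))
      rw [map_neg] at p4
      by_contra x
      have x1 := (p2 (inl 0) (by simp)).1 (by linarith)
      have x2 := (n1 (inl 0) (by simp)).1 (by linarith)
      simp only [φ, Sum.map_inl, inl_mem_disjSum, mem_f] at x1 x2
      simp [d1.2.2.1 m a 0 x1] at x2
    refine ⟨fun i => u (p (inl ⟨2 * i, by omega⟩)) / c, fun i => ?_, ?_⟩
    · have b : (inl ⟨2 * i, by omega⟩ : Fin 11 ⊕ Fin j × Bool) ≠ inl 10 := by
        simp [Fin.ext_iff]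
        omega
      have p3 := p1 _ (m1 _ b)
      have p4 := p1 _ (m2 _ b)
      rw [map_neg] at p4
      refine ⟨by rw [abs_div, abs_of_pos c0, div_le_one c0, abs_le]; constructor <;> linarith,
        by rw [div_eq_one_iff_eq c0.ne', p2 _ b]; simp [mem_f], ?_⟩
      rw [div_eq_iff c0.ne', neg_one_mul, n1 _ b]
      fin_cases i <;> simp [φ, ψ, mem_f]
    · have := congrArg (fun y => u y / c) g1
      simp only [map_sum, map_smul, smul_eq_mul, Fintype.sum_sum_type, elim_inl, elim_inr,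
        map_add, map_zero, zero_div, add_div, sum_div, mul_div_assoc] at this
      rw [← this]
      congr 1
      refine sum_congr rfl fun t _ => congrArg _ ?_
      rw [eq_div_iff c0.ne']
      cases e : s t
      · simpa using ((n1 (inr (t, true)) (by simp)).2 (by simp [φ, e])).symm
      · simpa using ((p2 (inr (t, true)) (by simp)).2 (by simp [e])).symm
  have k2 : ∀ s : Fin j → Bool, g (inl 1) = 0 ∧ g (inl 2) = 0 ∧ g (inl 3) = 0 ∧ g (inl 4) = 0 ∧
      g (inl 0) + ∑ t, g (inr t) * (if s t then 1 else -1) = 0 := by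
    intro s
    have lt : ∀ y : ℝ, |y| ≤ 1 → ¬ y = 1 → ¬ y = -1 → -1 < y ∧ y < 1 := fun y a b c =>
      ⟨lt_of_le_of_ne (abs_le.1 a).1 (Ne.symm c), lt_of_le_of_ne (abs_le.1 a).2 b⟩
    obtain ⟨x1, a1, b1⟩ := key 101 (by decide) s
    obtain ⟨x2, a2, b2⟩ := key 165 (by decide) s
    obtain ⟨x3, a3, b3⟩ := key 277 (by decide) s
    obtain ⟨x4, a4, b4⟩ := key 281 (by decide) s
    obtain ⟨x5, a5, b5⟩ := key 533 (by decide) s
    rw [Fin.sum_univ_five] at b1 b2 b3 b4 b5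
    rw [(a1 0).2.1.2 rfl, (a1 1).2.1.2 rfl, (a1 2).2.2.2 rfl, (a1 3).2.1.2 rfl] at b1
    rw [(a2 0).2.1.2 rfl, (a2 1).2.1.2 rfl, (a2 2).2.2.2 rfl, (a2 3).2.2.2 rfl] at b2
    rw [(a3 0).2.1.2 rfl, (a3 1).2.1.2 rfl, (a3 2).2.1.2 rfl, (a3 4).2.1.2 rfl] at b3
    rw [(a4 0).2.1.2 rfl, (a4 1).2.2.2 rfl, (a4 2).2.1.2 rfl, (a4 4).2.1.2 rfl] at b4
    rw [(a5 0).2.1.2 rfl, (a5 1).2.1.2 rfl, (a5 2).2.1.2 rfl, (a5 4).2.2.2 rfl] at b5
    have y1 := lt _ (a1 4).1 (mt (a1 4).2.1.1 (by decide)) (mt (a1 4).2.2.1 (by decide))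
    have y2 := lt _ (a2 4).1 (mt (a2 4).2.1.1 (by decide)) (mt (a2 4).2.2.1 (by decide))
    have y3 := lt _ (a3 3).1 (mt (a3 3).2.1.1 (by decide)) (mt (a3 3).2.2.1 (by decide))
    have y5 := lt _ (a5 3).1 (mt (a5 3).2.1.1 (by decide)) (mt (a5 3).2.2.1 (by decide))
    have e1 : 2 * g (inl 3) = (x2 4 - x1 4) * g (inl 4) := by linarith
    have e2 : 2 * g (inl 4) = (x5 3 - x3 3) * g (inl 3) := by linarith
    have e4 : g (inl 4) = 0 := by
      have : (4 - (x5 3 - x3 3) * (x2 4 - x1 4)) * g (inl 4) = 0 := by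
        linear_combination 2 * e2 + (x5 3 - x3 3) * e1
      refine (mul_eq_zero.1 this).resolve_left (ne_of_gt ?_)
      generalize x5 3 = a at y5 ⊢
      generalize x3 3 = b at y3 ⊢
      generalize x2 4 = c at y2 ⊢
      generalize x1 4 = d at y1 ⊢
      clear * - y1 y2 y3 y5
      nlinarith [mul_pos (show 0 < 2 - (a - b) by linarith) (show 0 < 2 + (c - d) by linarith),
        mul_pos (show 0 < 2 + (a - b) by linarith) (show 0 < 2 - (c - d) by linarith)]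
    have e3 : g (inl 3) = 0 := by rw [e4] at e1; linarith
    rw [e3, e4] at b1 b3 b4
    exact ⟨by linarith, by linarith, e3, e4, by linarith⟩
  have t1 := k2 fun t => decide (0 ≤ g (inr t))
  have t2 := (k2 fun t => !decide (0 ≤ g (inr t))).2.2.2.2
  have e1 : ∀ t, g (inr t) * (if decide (0 ≤ g (inr t)) then 1 else -1) = |g (inr t)| := fun t => by
    by_cases c : 0 ≤ g (inr t)
    · simp [c, abs_of_nonneg]
    · simp [c, abs_of_neg (not_le.1 c)]
  have e2 : ∀ t, g (inr t) * (if !decide (0 ≤ g (inr t)) then 1 else -1) = -|g (inr t)| :=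
    fun t => by rw [← e1]; cases decide (0 ≤ g (inr t)) <;> simp
  simp only [e1, e2, sum_neg_distrib] at t1 t2
  obtain ⟨i | i, b⟩ := g2
  · fin_cases i
    exacts [b (by show g (inl 0) = 0; linarith [t1.2.2.2.2]), b t1.1, b t1.2.1, b t1.2.2.1,
      b t1.2.2.2.1]
  · exact b (abs_eq_zero.1 ((sum_eq_zero_iff_of_nonneg fun t _ => abs_nonneg (g (inr t))).1
      (by linarith [t1.2.2.2.2]) i (mem_univ _)))

end Pool.Agent.H.MP_ca8007_co.B
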